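import Pool.Agent.helper91.LE.C0
import Pool.Agent.helper64.LE.BO
import Pool.Agent.helper58.LE.C1
import Pool.Agent.helper58.LE.C2
import Pool.Agent.helper26.LE.C4a

/-!
# lg:C4b  crossing probabilities of boxes of the lattice: assembly
-/

set_option autoImplicit false

open Finset Classical MeasureTheory Filter Topology

namespace Pool.Agent.helper66.LE



section C4

/-- the bootstrap -/
theorem C4b_good : ∃ K : ℝ, 0 < K ∧ ∃ d₀ : ℕ, ∀ d ≥ d₀, ∀ X : ℝ, ∃ L₀ : ℕ,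
    ∀ L ≥ L₀, ∀ [NeZero L], ∀ q : ℝ, 0 ≤ q → q ≤ 1 → chi d L q ≤ X → Good d L q K := by
  obtain ⟨K, hK, d₀, hd72, hd₀⟩ := improve
  refine ⟨K, hK, d₀, fun d hd X => ?_⟩
  obtain ⟨L₀, hL3, hL₀⟩ := hd₀ d hd X
  refine ⟨L₀, fun L hL _ q h0 h1 hX => ?_⟩
  have hF : ∀ k : Tor d L, Continuous fun t : ℝ => fh (tt d L t) k * (1 - Dh k) := fun k =>
    (continuous_fh k).mul continuous_const
  have hW : Continuous fun t : ℝ => (d : ℝ) * WW d L t := continuous_const.mul (continuous_WW d L)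
  have hd2 : Continuous fun t : ℝ => 2 * (d : ℝ) * t := continuous_const.mul continuous_id
  have hclosed : IsClosed {t : ℝ | Good d L t K} := by
    have h : {t : ℝ | Good d L t K} = {t : ℝ | 2 * (d : ℝ) * t ≤ 3} ∩
        ((⋂ k : Tor d L, {t : ℝ | fh (tt d L t) k * (1 - Dh k) ≤ 6}) ∩ {t : ℝ | (d : ℝ) * WW d L t ≤ K}) := by
      ext t
      simp only [Good, Set.mem_ofPred_eq, Set.mem_inter_iff, Set.mem_iInter]
    rw [h]
    exact (isClosed_le hd2 continuous_const).inter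
      ((isClosed_iInter fun k => isClosed_le (hF k) continuous_const).inter
        (isClosed_le hW continuous_const))
  have hsub : Set.Icc 0 q ⊆ {t : ℝ | Good d L t K} := by
    refine IsClosed.Icc_subset_of_forall_mem_nhdsWithin (hclosed.inter isClosed_Icc)
      (good_zero d L (by omega) K hK.le) ?_
    rintro t ⟨ht, ht0, htq⟩
    have hX' : chi d L t ≤ X := (chi_mono ht0 htq.le h1).trans hX
    obtain ⟨⟨i1, i2, i3⟩, -, -⟩ := hL₀ L hL t ht0 (htq.le.trans h1) hX' ht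
    refine nhdsWithin_le_nhds ?_
    have e1 : ∀ᶠ u in 𝓝 t, 2 * (d : ℝ) * u < 3 := hd2.continuousAt.eventually_lt_const (by linarith)
    have e2 : ∀ᶠ u in 𝓝 t, ∀ k : Tor d L, fh (tt d L u) k * (1 - Dh k) < 6 :=
      Filter.eventually_all.2 fun k => (hF k).continuousAt.eventually_lt_const (by
        have := i2 k
        linarith)
    have e3 : ∀ᶠ u in 𝓝 t, (d : ℝ) * WW d L u < K := hW.continuousAt.eventually_lt_const (by linarith)
    filter_upwards [e1, e2, e3] with u u1 u2 u3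
    exact ⟨u1.le, fun k => (u2 k).le, u3.le⟩
  exact hsub ⟨h0, le_refl q⟩

/-- the C4b_infrared bound (output of part A). -/
theorem C4b_infrared : ∃ d₀ : ℕ, ∀ d ≥ d₀, ∀ X : ℝ, ∃ L₀ : ℕ, ∀ L ≥ L₀, ∀ [NeZero L], ∀ q : ℝ, 0 ≤ q → q ≤ 1 →
    chi d L q ≤ X → ∀ k : Tor d L, fh (tt d L q) k * (1 - Dh k) ≤ 6 := by
  obtain ⟨K, -, d₀, hd₀⟩ := C4b_good
  refine ⟨d₀, fun d hd X => ?_⟩
  obtain ⟨L₀, hL₀⟩ := hd₀ d hd X
  exact ⟨L₀, fun L hL _ q h0 h1 hX => (hL₀ L hL q h0 h1 hX).2.1⟩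

/-- near critical bounds (FI_setup and chi_gap), upper bound for the susceptibility. -/
theorem chi_upper : ∃ d₀ : ℕ, ∀ d ≥ d₀, 100 ≤ d ∧ pc d < 1 ∧ ∀ ε, 0 < ε → ε ≤ pc d → ∃ L₁ : ℕ, ∀ L ≥ L₁,
    ∀ [NeZero L], chi d L (pc d - ε) ≤ 2 / (d * ε) := by
  obtain ⟨d₀, hd₀⟩ := lace_main
  refine ⟨d₀ + 100, fun d hd => ?_⟩
  obtain ⟨C, -, hC⟩ := hd₀ d (by omega)
  have hd100 : 100 ≤ d := by omega
  have hd' : (100 : ℝ) ≤ d := by exact_mod_cast hd100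
  have hpc0 : 0 < pc d := pc_pos (by omega)
  have hq : ∀ q, 0 ≤ q → q < pc d → (d : ℝ) * q ≤ 1 := by
    intro q h0 h
    obtain ⟨X, L₁, hX⟩ := chi_bdd h0 h
    obtain ⟨L₀, hL₀⟩ := hC X
    have : NeZero (L₀ + L₁ + 1) := ⟨by omega⟩
    have h2 := (hL₀ (L₀ + L₁ + 1) (by omega) q h0 (h.le.trans (pc_le_one d))
      (hX (L₀ + L₁ + 1) (by omega))).1
    linarith
  have hpc1 : pc d < 1 := by
    by_contra hc
    push Not at hc
    have := hq (1 / 2) (by norm_num) (by linarith)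
    linarith
  refine ⟨hd100, hpc1, fun ε hε hε' => ?_⟩
  obtain ⟨X, L₁, hX⟩ := chi_bdd (d := d) (q := pc d - ε / 2) (by linarith) (by linarith)
  obtain ⟨L₀, hL₀⟩ := hC X
  refine ⟨L₀ + L₁ + 3, fun L hL _ => ?_⟩
  have h1 : ∀ q, pc d - ε ≤ q → q ≤ pc d - ε / 2 → GoodB d L C q := by
    intro q hq1 hq2
    have hq0 : 0 ≤ q := by linarith
    have hq3 : q ≤ 1 := by linarith
    exact hL₀ L (by omega) q hq0 hq3
      ((chi_mono hq0 hq2 (by linarith)).trans (hX L (by omega)))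
  have h2 := chi_gap (d := d) (L := L) (C := C) hd100 (by omega) (q₁ := pc d - ε) (q₂ := pc d - ε / 2)
    (by linarith) (by linarith) h1
  have h3 : 1 ≤ chi d L (pc d - ε) := one_le_chi (by linarith) (by linarith)
  have h4 : 1 ≤ chi d L (pc d - ε / 2) := one_le_chi (by linarith) (by linarith)
  have h5 : 0 < 1 / chi d L (pc d - ε / 2) := by positivity
  have h6 : 0.9 * d * ε ≤ 1 / chi d L (pc d - ε) := by
    have e : 1.8 * (d : ℝ) * (pc d - ε / 2 - (pc d - ε)) = 0.9 * d * ε := by ring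
    rw [e] at h2
    linarith
  rw [le_div_iff₀ (by linarith)] at h6
  rw [le_div_iff₀ (by positivity)]
  nlinarith

theorem C4b_inc {V : Type*} (E : Finset (Sym2 V)) (k : ℕ) (A B : Set V) :
    Inc (fun F => PTS E F k A B) := by
  rintro F F' hFF' ⟨a, ha, b, hb, h⟩
  exact ⟨a, ha, b, hb, inc_PT E k a b F F' hFF' h⟩

theorem cross_box : ∃ d₀ : ℕ, ∀ d ≥ d₀, 100 ≤ d ∧ pc d < 1 ∧ ∃ (κ C₀ : ℝ) (r₀ : ℕ), 0 < κ ∧ 0 < C₀ ∧
    ∀ r s : ℕ, r₀ ≤ r → s ≤ r → C₀ * (r : ℝ) ^ 6 ≤ (s : ℝ) ^ d → ∀ q : ℝ, 0 ≤ q → q ≤ 1 →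
      pc d - κ / (r : ℝ) ^ 2 ≤ q →
      1 / 2 ≤ Pr q (zE d (box d r))
        (fun F => PTS (zE d (box d r)) F 0 (box d s : Set (Fin d → ℤ)) (bd d r)) := by
  obtain ⟨d₁, hd₁⟩ := chi_upper
  obtain ⟨d₂, hd₂⟩ := C4b_infrared
  refine ⟨d₁ + d₂, fun d hd => ?_⟩
  obtain ⟨hd100, hpc1, hup⟩ := hd₁ d (by omega)
  have hIR := hd₂ d (by omega)
  have hd' : (100 : ℝ) ≤ d := by exact_mod_cast hd100
  have hpc0 : 0 < pc d := pc_pos (by omega)
  set κ : ℝ := 1 / (6000 * (d : ℝ) ^ 2) with hκ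
  have hκ0 : 0 < κ := by positivity
  have hdκ : (d : ℝ) * κ * (6000 * d) = 1 := by
    rw [hκ]
    field_simp
  obtain ⟨n, hn⟩ := exists_nat_ge (κ / pc d)
  refine ⟨hd100, hpc1, κ, 4096 * 8 / (d * κ) ^ 3, n + 1, hκ0, by positivity, ?_⟩
  intro r s hr hsr hrs q h0 h1 hq
  have hr1 : 1 ≤ r := by omega
  have hr1' : (1 : ℝ) ≤ r := by exact_mod_cast hr1
  have hrn : κ / pc d ≤ r := by
    refine hn.trans ?_
    have : n ≤ r := by omega
    exact_mod_cast this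
  set ε : ℝ := κ / (r : ℝ) ^ 2 with hε
  have hε0 : 0 < ε := by positivity
  have hεr : ε * (r : ℝ) ^ 2 = κ := by
    rw [hε]
    field_simp
  have hε1 : ε ≤ pc d := by
    rw [div_le_iff₀ hpc0] at hrn
    rw [hε, div_le_iff₀ (by positivity)]
    have : (r : ℝ) ≤ (r : ℝ) ^ 2 := by nlinarith
    nlinarith
  obtain ⟨L₁, hL₁⟩ := hup ε hε0 hε1
  obtain ⟨L₂, hL₂⟩ := chi_lower (d := d) (by omega) hpc1 hε0 hε1
  obtain ⟨L₃, hL₃⟩ := hIR (2 / (d * ε))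
  obtain ⟨L₄, hL₄⟩ := torus_to_box d r s (by omega) hr1 hsr
  obtain ⟨L₅, hL₅⟩ := exists_nat_ge (2 / (d * ε))
  set L : ℕ := L₁ + L₂ + L₃ + L₄ + L₅ + 1 with hL
  have hNe : NeZero L := ⟨by omega⟩
  have hq0' : 0 ≤ pc d - ε := by linarith
  have hq1' : pc d - ε ≤ 1 := by linarith
  have hchi_up : chi d L (pc d - ε) ≤ 2 / (d * ε) := hL₁ L (by omega)
  have hchi_lo : 1 / (3 * d * ε) ≤ chi d L (pc d - ε) := hL₂ L (by omega)
  have hir := hL₃ L (by omega) (pc d - ε) hq0' hq1' hchi_up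
  obtain ⟨A, hA, hbox⟩ := hL₄ L (by omega)
  -- lower bound of the susceptibility in terms of `r`
  have hlo2 : 2000 * (d : ℝ) * (r : ℝ) ^ 2 ≤ chi d L (pc d - ε) := by
    refine le_trans ?_ hchi_lo
    rw [le_div_iff₀ (by positivity)]
    have e : 2000 * (d : ℝ) * (r : ℝ) ^ 2 * (3 * d * ε) = (ε * (r : ℝ) ^ 2) * (d * (6000 * d)) := by ring
    rw [e, hεr]
    apply le_of_eq
    linarith
  have hr2 : (1 : ℝ) ≤ (r : ℝ) ^ 2 := by nlinarith
  have h24 : 24 * (d : ℝ) ≤ chi d L (pc d - ε) := by nlinarith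
  have hL2 : chi d L (pc d - ε) ≤ (L : ℝ) ^ 2 := by
    refine hchi_up.trans (hL₅.trans ?_)
    have e1 : (L₅ : ℝ) ≤ L := by
      have : L₅ ≤ L := by omega
      exact_mod_cast this
    have e2 : (1 : ℝ) ≤ L := by
      have : 1 ≤ L := by omega
      exact_mod_cast this
    nlinarith
  set i : Fin d := ⟨0, by omega⟩ with hi
  have hsp := spread (d := d) (L := L) (by omega) hq0' hq1' hir h24 hL2 i (ρ := 2 * (r : ℝ)) (by positivity)
    (by nlinarith)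
  have hfar := far_ge (d := d) (L := L) hq0' hq1' i hsp
  have hchi1 : 1 ≤ chi d L (pc d - ε) := one_le_chi hq0' hq1'
  have hAc : 4096 * (chi d L (pc d - ε)) ^ 3 ≤ A.card := by
    have e1 : (chi d L (pc d - ε)) ^ 3 ≤ (2 / (d * ε)) ^ 3 := by gcongr
    have e2 : (2 / (d * ε)) ^ 3 = 8 / (d * κ) ^ 3 * (r : ℝ) ^ 6 := by
      rw [← hεr]
      field_simp
      norm_num
    have e3 : (s : ℝ) ^ d ≤ A.card := by exact_mod_cast hA
    calc 4096 * (chi d L (pc d - ε)) ^ 3 ≤ 4096 * (8 / (d * κ) ^ 3 * (r : ℝ) ^ 6) := by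
          rw [← e2]
          linarith
      _ = 4096 * 8 / (d * κ) ^ 3 * (r : ℝ) ^ 6 := by ring
      _ ≤ (s : ℝ) ^ d := hrs
      _ ≤ A.card := e3
  have hcr := cross_torus (d := d) (L := L) hq0' hq1' i hfar A hAc
  have hfin := hcr.trans (hbox i (pc d - ε) hq0' hq1')
  exact hfin.trans (Pr_mono_q _ (C4b_inc _ _ _ _) hq0' hq h1)

end C4

end Pool.Agent.helper66.LE
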