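import Pool.Agent.helper83.LE.SpecB

/-!
# Project LE (MP_baa4d7_al), row ORB (helper91): the order of a character with a large Fourier coefficient
-/

set_option autoImplicit false

namespace Pool.Agent.LE

open Pool.Agent.helper58.DC Pool.Agent.DI Pool.Agent.GR Pool.Agent.OB Pool.Agent.DR Pool.Agent.FI Pool.Agent.FI3 Pool.Agent.FI4 Pool.Agent.FI4C

theorem ORB_shift (p : ℕ) (hp : p.Prime) (D : Type) [CommGroup D] [Fintype D] (hD : IsPGroup p D) (g : D → ℂ)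
    (hg : ∀ (u : D) (s : ℕ), s ≡ 1 [MOD p] → g (u ^ s) = g u) (l : D →* ℂˣ) (s : ℕ) (hs : s ≡ 1 [MOD p]) :
    fh g (l ^ s) = fh g l := by
  haveI : Fact p.Prime := ⟨hp⟩
  obtain ⟨k, hk⟩ := IsPGroup.iff_card.mp hD
  have hc : (Nat.card D).Coprime s := by
    rw [hk]
    refine Nat.Coprime.pow_left k ?_
    have h1 : Nat.gcd s p = Nat.gcd 1 p := hs.gcd_eq
    rw [Nat.gcd_one_left] at h1
    exact (Nat.coprime_comm.mp h1)
  unfold fh
  congr 1
  rw [← Equiv.sum_comp (powCoprime hc) (fun u => g u * (starRingEnd ℂ) (lv l u))]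
  refine Finset.sum_congr rfl fun u _ => ?_
  show g u * (starRingEnd ℂ) (lv (l ^ s) u) = g (u ^ s) * (starRingEnd ℂ) (lv l (u ^ s))
  rw [hg u s hs]
  congr 2
  unfold lv
  rw [map_pow, MonoidHom.pow_apply]

theorem ORB (hFOU : FOU_stmt) : ORB_stmt := by
  classical
  intro p hp D _ _ hD n g hg hn l hl
  obtain ⟨e⟩ := CommGroup.monoidHom_mulEquiv_of_hasEnoughRootsOfUnity D ℂ
  haveI : Finite (D →* ℂˣ) := Finite.of_equiv D e.symm.toEquiv
  letI : Fintype (D →* ℂˣ) := Fintype.ofFinite _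
  obtain ⟨hP, -, -⟩ := hFOU D g
  have hcard : (0 : ℝ) < Nat.card D := by exact_mod_cast Nat.card_pos
  have hS : ∑ l : D →* ℂˣ, ‖fh g l‖ ^ 2 ≤ n := by
    rw [hP, div_le_iff₀ hcard]
    exact hn
  obtain ⟨k, hk⟩ : ∃ k, k = orderOf (l ^ p) := ⟨_, rfl⟩
  have hk0 : 0 < k := by
    rw [hk]
    exact orderOf_pos (l ^ p)
  have hinj : Set.InjOn (fun j : ℕ => l ^ (1 + p * j)) (Finset.range k : Set ℕ) := by
    intro i hi j hj hij
    have h2 : ∀ i : ℕ, l ^ (1 + p * i) = l * (l ^ p) ^ i := fun i =>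
      (pow_add l 1 (p * i)).trans (congrArg₂ (fun a b => a * b) (pow_one l) (pow_mul l p i))
    have h1 : l * (l ^ p) ^ i = l * (l ^ p) ^ j := (h2 i).symm.trans ((show l ^ (1 + p * i) = l ^ (1 + p * j) from hij).trans (h2 j))
    replace h1 : (l ^ p) ^ i = (l ^ p) ^ j := mul_left_cancel h1
    rw [Finset.coe_range, hk] at hi hj
    exact pow_injOn_Iio_orderOf hi hj h1
  have hsum : ∑ j ∈ Finset.range k, ‖fh g (l ^ (1 + p * j))‖ ^ 2 ≤ n := by
    have h1 : ∑ j ∈ Finset.range k, ‖fh g (l ^ (1 + p * j))‖ ^ 2 =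
        ∑ x ∈ (Finset.range k).image (fun j : ℕ => l ^ (1 + p * j)), ‖fh g x‖ ^ 2 := by
      rw [Finset.sum_image hinj]
    rw [h1]
    refine le_trans ?_ hS
    exact Finset.sum_le_sum_of_subset_of_nonneg (Finset.subset_univ _) fun _ _ _ => by positivity
  have hterm : ∀ j ∈ Finset.range k, (1 / 4 : ℝ) ≤ ‖fh g (l ^ (1 + p * j))‖ ^ 2 := by
    intro j _
    rw [ORB_shift p hp D hD g hg l (1 + p * j) (by
      show (1 + p * j) % p = 1 % p
      rw [Nat.add_mul_mod_self_left])]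
    calc (1 / 4 : ℝ) = (1 / 2) ^ 2 := by norm_num
      _ ≤ ‖fh g l‖ ^ 2 := pow_le_pow_left₀ (by norm_num) hl 2
  have h4 : (k : ℝ) * (1 / 4) ≤ n := by
    refine le_trans ?_ hsum
    have h5 := Finset.sum_le_sum hterm
    rw [Finset.sum_const, Finset.card_range, nsmul_eq_mul] at h5
    exact h5
  have h6 : k ≤ 4 * n := by
    have : (k : ℝ) ≤ 4 * n := by linarith
    exact_mod_cast this
  have h7 : orderOf l ∣ p * k := by
    rw [orderOf_dvd_iff_pow_eq_one, pow_mul, hk]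
    exact pow_orderOf_eq_one _
  calc orderOf l ≤ p * k := Nat.le_of_dvd (Nat.mul_pos hp.pos hk0) h7
    _ ≤ p * (4 * n) := Nat.mul_le_mul_left p h6
    _ = 4 * p * n := by ring

end Pool.Agent.LE
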