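import Pool.Agent.helper66.LE.Defs3
import Pool.Agent.helper62.LE.GO
import Pool.Agent.helper57.LE.S2
import Pool.Agent.helper73.LE.BX
import Pool.Agent.helper73.LE.TK

/-!
# lg:C0  lower bound of the susceptibility
-/

set_option autoImplicit false

open Finset Classical MeasureTheory Filter Topology

namespace Pool.Agent.helper66.LE

section C0

theorem C0_continuous_phi (d : ℕ) (Λ : Finset (Fin d → ℤ)) : Continuous (fun q : ℝ => phi d q Λ) := by
  unfold phi
  refine continuous_finsetSum _ fun x _ => continuous_finsetSum _ fun s _ => ?_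
  by_cases h : x + s ∉ Λ
  · simp only [if_pos h]
    exact continuous_id.mul (continuous_Pr _ _)
  · simp only [if_neg h]
    exact continuous_const

theorem phi_pc {d : ℕ} (hd : 1 ≤ d) (hpc : pc d < 1) (Λ : Finset (Fin d → ℤ)) (h0 : 0 ∈ Λ) :
    1 ≤ phi d (pc d) Λ := by
  have hc : Tendsto (fun q : ℝ => phi d q Λ) (𝓝[>] (pc d)) (𝓝 (phi d (pc d) Λ)) :=
    ((C0_continuous_phi d Λ).tendsto (pc d)).mono_left nhdsWithin_le_nhds
  refine ge_of_tendsto hc ?_
  have h1 : ∀ᶠ q in 𝓝[>] (pc d), q < 1 := nhdsWithin_le_nhds (Iio_mem_nhds hpc)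
  filter_upwards [self_mem_nhdsWithin, h1] with q hq hq1
  exact one_le_phi hq hq1.le h0

theorem C0_sum_conv {G : Type*} [AddCommGroup G] [Fintype G] (f g : G → ℝ) :
    ∑ x, conv f g x = (∑ x, f x) * ∑ x, g x := by
  unfold conv
  rw [Finset.sum_comm, Finset.sum_mul]
  refine Finset.sum_congr rfl fun y _ => ?_
  rw [← Finset.mul_sum]
  congr 1
  exact Fintype.sum_equiv (Equiv.subRight y) _ _ fun x => rfl

theorem C0_sum_J {G : Type*} [AddCommGroup G] [Fintype G] (S : Finset G) :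
    ∑ x, J S x = S.card := by
  unfold J
  rw [Finset.sum_ite_mem, Finset.univ_inter]
  simp

theorem dchi_le {d L : ℕ} [NeZero L] (hL : 3 ≤ L) {q : ℝ} (h0 : 0 ≤ q) (h1 : q ≤ 1) :
    dchi d L q ≤ 2 * d * (chi d L q) ^ 2 := by
  unfold dchi
  refine (Finset.sum_le_sum fun x _ => dtau_le h0 h1 (uv_neg d (ZMod L)) x).trans ?_
  rw [C0_sum_conv, C0_sum_conv, C0_sum_J, card_uv d hL]
  have hchi : (∑ x, tau q (uv d (ZMod L)) x) = chi d L q := rfl
  rw [hchi]
  push_cast
  apply le_of_eq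
  ring

/-- the sphere of radius `m` -/
noncomputable def C0_sh (d m : ℕ) : Finset (Fin d → ℤ) := (box d m).filter fun x => ∃ i, |x i| = m

theorem C0_mem_box {d m : ℕ} {x : Fin d → ℤ} : x ∈ box d m ↔ ∀ i, |x i| ≤ m := by
  unfold box
  rw [Fintype.mem_piFinset]
  simp only [Finset.mem_Icc, abs_le]

theorem C0_zero_mem (d m : ℕ) : (0 : Fin d → ℤ) ∈ box d m := by
  rw [C0_mem_box]
  intro i
  simp

theorem C0_shell {d m : ℕ} {x s : Fin d → ℤ} (hx : x ∈ box d m) (hs : s ∈ uv d ℤ)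
    (hxs : x + s ∉ box d m) : x ∈ C0_sh d m := by
  unfold C0_sh
  rw [Finset.mem_filter]
  refine ⟨hx, ?_⟩
  rw [C0_mem_box] at hx hxs
  push Not at hxs
  obtain ⟨i, hi⟩ := hxs
  refine ⟨i, ?_⟩
  have h1 := hx i
  have h2 : |s i| ≤ 1 := by
    rw [mem_uv] at hs
    obtain ⟨j, rfl | rfl⟩ := hs
    · by_cases h : i = j
      · subst h; simp
      · simp [Pi.single_eq_of_ne h]
    · by_cases h : i = j
      · subst h; simp
      · simp [Pi.single_eq_of_ne h]
  have h3 : |(x + s) i| ≤ |x i| + |s i| := abs_add_le _ _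
  omega

theorem C0_shell_sum {d : ℕ} (hd : 1 ≤ d) (hpc : pc d < 1) (m : ℕ) :
    1 / (2 * (d : ℝ)) ≤ ∑ x ∈ C0_sh d m, Pr (pc d) (zE d (box d m)) (fun F => Conn F 0 x) := by
  have hp0 := S2_pc_nonneg d
  have hp1 := pc_le_one d
  have hd' : (1 : ℝ) ≤ d := by exact_mod_cast hd
  have h := phi_pc hd hpc (box d m) (C0_zero_mem d m)
  have h2 : phi d (pc d) (box d m) ≤
      ∑ x ∈ box d m, if x ∈ C0_sh d m then
        2 * (d : ℝ) * Pr (pc d) (zE d (box d m)) (fun F => Conn F 0 x) else 0 := by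
    unfold phi
    refine Finset.sum_le_sum fun x hx => ?_
    have hP := Pr_nonneg hp0 hp1 (zE d (box d m)) (fun F => Conn F 0 x)
    split_ifs with hsh
    · have h3 : ∀ s ∈ uv d ℤ, (if x + s ∉ box d m then
          pc d * Pr (pc d) (zE d (box d m)) (fun F => Conn F 0 x) else 0) ≤
          Pr (pc d) (zE d (box d m)) (fun F => Conn F 0 x) := by
        intro s _
        split_ifs
        · exact hP
        · exact mul_le_of_le_one_left hP hp1
      refine (Finset.sum_le_card_nsmul _ _ _ h3).trans ?_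
      rw [nsmul_eq_mul]
      have hc : ((uv d ℤ).card : ℝ) ≤ 2 * d := by exact_mod_cast S2_card_uv d ℤ
      exact mul_le_mul_of_nonneg_right hc hP
    · refine le_of_eq (Finset.sum_eq_zero fun s hs => ?_)
      rw [if_neg]
      intro hc
      exact hsh (C0_shell hx hs hc)
  have h3 : (∑ x ∈ box d m, if x ∈ C0_sh d m then
        2 * (d : ℝ) * Pr (pc d) (zE d (box d m)) (fun F => Conn F 0 x) else 0) =
      2 * d * ∑ x ∈ C0_sh d m, Pr (pc d) (zE d (box d m)) (fun F => Conn F 0 x) := by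
    rw [← Finset.sum_filter, Finset.mul_sum]
    refine Finset.sum_congr ?_ fun _ _ => rfl
    ext x
    rw [Finset.mem_filter]
    constructor
    · exact fun h => h.2
    · exact fun h => ⟨(Finset.mem_filter.1 h).1, h⟩
  rw [h3] at h2
  rw [div_le_iff₀ (by positivity)]
  linarith

theorem chi_pc {d : ℕ} (hd : 1 ≤ d) (hpc : pc d < 1) (n : ℕ) : ∃ L₁ : ℕ, ∀ L ≥ L₁, ∀ [NeZero L],
    n / (2 * d) ≤ chi d L (pc d) := by
  have hp0 := S2_pc_nonneg d
  have hp1 := pc_le_one d
  have hb := fun m => box_torus d (box d m)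
  choose L1 hL1 using hb
  obtain ⟨L2, hL2⟩ := S2_inj d (box d n)
  refine ⟨(∑ m ∈ Finset.range n, L1 m) + L2, fun L hL _ => ?_⟩
  have hinj := hL2 L (by omega)
  have hLm : ∀ m ∈ Finset.range n, L1 m ≤ L := by
    intro m hm
    have := Finset.single_le_sum (f := L1) (fun _ _ => Nat.zero_le _) hm
    omega
  have hsh : ∀ m ∈ Finset.range n, 1 / (2 * (d : ℝ)) ≤ ∑ x ∈ C0_sh d m, tt d L (pc d) (S2_red d L x) := by
    intro m hm
    refine (C0_shell_sum hd hpc m).trans (Finset.sum_le_sum fun x hx => ?_)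
    have hxb : x ∈ box d m := (Finset.mem_filter.1 hx).1
    have h1 := (hL1 m L (hLm m hm) (pc d) hp0 hp1).2 0 x hxb
    have h2 : Pr (pc d) (zE d (box d m)) (fun F => Conn F 0 x) =
        Pr (pc d) (zE d (box d m)) (fun F => PT (zE d (box d m)) F 0 0 x) :=
      Pr_congr fun F hF => (PT_zero_iff hF 0 x).symm
    have h3 : Pr (pc d) (cay (uv d (ZMod L)))
        (fun F => PT (cay (uv d (ZMod L))) F 0 0 (fun j => ((x j : ℤ) : ZMod L))) =
        tt d L (pc d) (S2_red d L x) := by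
      unfold tt tau
      exact Pr_congr fun F hF => PT_zero_iff hF 0 _
    rw [h2, ← h3]
    exact h1
  have hdisj : ∀ m ∈ Finset.range n, ∀ m' ∈ Finset.range n, m ≠ m' →
      Disjoint (C0_sh d m) (C0_sh d m') := by
    intro m _ m' _ hne
    rw [Finset.disjoint_left]
    intro x hx hx'
    obtain ⟨hb, i, hi⟩ := Finset.mem_filter.1 hx
    obtain ⟨hb', i', hi'⟩ := Finset.mem_filter.1 hx'
    rw [C0_mem_box] at hb hb'
    have e1 := hb i'
    have e2 := hb' i
    omega
  have hsum : ∑ m ∈ Finset.range n, ∑ x ∈ C0_sh d m, tt d L (pc d) (S2_red d L x) =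
      ∑ x ∈ (Finset.range n).biUnion (C0_sh d), tt d L (pc d) (S2_red d L x) := by
    rw [Finset.sum_biUnion]
    intro m hm m' hm' hne
    exact hdisj m (by exact_mod_cast hm) m' (by exact_mod_cast hm') hne
  have hsub : ∀ x ∈ (Finset.range n).biUnion (C0_sh d), x ∈ box d n := by
    intro x hx
    obtain ⟨m, hm, hxm⟩ := Finset.mem_biUnion.1 hx
    have hxb : x ∈ box d m := (Finset.mem_filter.1 hxm).1
    rw [C0_mem_box] at hxb ⊢
    intro i
    have := hxb i
    have := Finset.mem_range.1 hm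
    omega
  have himg : ∑ x ∈ (Finset.range n).biUnion (C0_sh d), tt d L (pc d) (S2_red d L x) =
      ∑ y ∈ ((Finset.range n).biUnion (C0_sh d)).image (S2_red d L), tt d L (pc d) y := by
    rw [Finset.sum_image]
    intro x hx y hy hxy
    exact hinj (by exact_mod_cast hsub x hx) (by exact_mod_cast hsub y hy) hxy
  have hle : ∑ y ∈ ((Finset.range n).biUnion (C0_sh d)).image (S2_red d L), tt d L (pc d) y ≤
      chi d L (pc d) := by
    unfold chi
    exact Finset.sum_le_univ_sum_of_nonneg fun y => tau_nonneg hp0 hp1 _ _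
  have hn : (n : ℝ) / (2 * d) = ∑ m ∈ Finset.range n, 1 / (2 * (d : ℝ)) := by
    rw [Finset.sum_const, Finset.card_range, nsmul_eq_mul]
    ring
  rw [hn]
  calc ∑ m ∈ Finset.range n, 1 / (2 * (d : ℝ)) ≤
      ∑ m ∈ Finset.range n, ∑ x ∈ C0_sh d m, tt d L (pc d) (S2_red d L x) := Finset.sum_le_sum hsh
    _ ≤ chi d L (pc d) := by rw [hsum, himg]; exact hle

theorem C0_inv {d L : ℕ} [NeZero L] (hL : 3 ≤ L) {q₁ q₂ : ℝ} (h0 : 0 ≤ q₁) (h : q₁ ≤ q₂) (h1 : q₂ ≤ 1) :
    1 / chi d L q₁ ≤ 1 / chi d L q₂ + 2 * d * (q₂ - q₁) := by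
  have hpos : ∀ q ∈ Set.Icc q₁ q₂, 1 ≤ chi d L q := fun q hq =>
    one_le_chi (h0.trans hq.1) (hq.2.trans h1)
  have hder : ∀ q ∈ Set.Icc q₁ q₂, HasDerivAt (fun q => 1 / chi d L q + 2 * d * q)
      (-(dchi d L q) / (chi d L q) ^ 2 + 2 * d) q := by
    intro q hq
    have hne : chi d L q ≠ 0 := by
      have := hpos q hq
      linarith
    have h1 : HasDerivAt (fun q => 1 / chi d L q) (-(dchi d L q) / (chi d L q) ^ 2) q := by
      have := (hasDerivAt_chi (d := d) hL q).inv hne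
      refine this.congr_of_eventuallyEq ?_
      filter_upwards with y
      simp
    have h2 : HasDerivAt (fun q : ℝ => 2 * d * q) (2 * d) q := by
      simpa using (hasDerivAt_id q).const_mul (2 * (d : ℝ))
    exact h1.add h2
  have hmono : MonotoneOn (fun q => 1 / chi d L q + 2 * d * q) (Set.Icc q₁ q₂) := by
    apply monotoneOn_of_deriv_nonneg (convex_Icc _ _)
    · intro q hq
      exact (hder q hq).continuousAt.continuousWithinAt
    · intro q hq
      exact (hder q (interior_subset hq)).differentiableAt.differentiableWithinAt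
    · intro q hq
      have hq' := interior_subset hq
      rw [(hder q hq').deriv]
      have h2 := dchi_le (d := d) hL (h0.trans hq'.1) (hq'.2.trans h1)
      have h3 := hpos q hq'
      have h4 : dchi d L q / (chi d L q) ^ 2 ≤ 2 * d := by
        rw [div_le_iff₀ (by positivity)]
        exact h2
      rw [neg_div]
      linarith
  have := hmono (Set.left_mem_Icc.2 h) (Set.right_mem_Icc.2 h) h
  simp only at this
  linarith

theorem chi_lower {d : ℕ} (hd : 1 ≤ d) (hpc : pc d < 1) {ε : ℝ} (hε : 0 < ε) (hε' : ε ≤ pc d) :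
    ∃ L₁ : ℕ, ∀ L ≥ L₁, ∀ [NeZero L], 1 / (3 * d * ε) ≤ chi d L (pc d - ε) := by
  obtain ⟨n, hn⟩ := exists_nat_ge (2 / ε)
  obtain ⟨L₁, hL₁⟩ := chi_pc hd hpc n
  refine ⟨L₁ + 3, fun L hL _ => ?_⟩
  have hd' : (1 : ℝ) ≤ d := by exact_mod_cast hd
  have h1 := hL₁ L (by omega)
  have h2 : 1 / (d * ε) ≤ chi d L (pc d) := by
    refine le_trans ?_ h1
    rw [div_le_div_iff₀ (by positivity) (by positivity)]
    rw [div_le_iff₀ hε] at hn
    nlinarith
  have h3 : 1 / chi d L (pc d) ≤ d * ε := by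
    rw [div_le_iff₀ (lt_of_lt_of_le (by positivity) h2)]
    rw [div_le_iff₀ (by positivity)] at h2
    linarith
  have h4 := C0_inv (d := d) (L := L) (by omega) (q₁ := pc d - ε) (q₂ := pc d) (by linarith)
    (by linarith) (pc_le_one d)
  have h5 : 1 ≤ chi d L (pc d - ε) := one_le_chi (by linarith) (by linarith)
  have h6 : 1 / chi d L (pc d - ε) ≤ 3 * d * ε := by
    refine h4.trans ?_
    linarith
  rw [div_le_iff₀ (by linarith)] at h6
  rw [div_le_iff₀ (by positivity)]
  linarith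

end C0

end Pool.Agent.helper66.LE
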